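import Mathlib

/-!
# Injective dimension and right adjoints of exact functors, for `MP_9c87df_ag`
-/

open CategoryTheory CategoryTheory.Limits

noncomputable section

namespace Pool.Agent.H66DE.H83

universe v u v' u'

variable {C : Type u} [Category.{v} C] [Abelian C] {D : Type u'} [Category.{v'} D] [Abelian D]

theorem shortExact_map (F : C ⥤ D) [F.PreservesZeroMorphisms] [PreservesFiniteLimits F]
    [F.PreservesEpimorphisms] {S : ShortComplex C} (hS : S.ShortExact) :
    (S.map F).ShortExact := by
  have := hS.mono_f
  have := hS.epi_g
  have h1 : Mono (F.map S.f) := inferInstance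
  have h2 : Epi (F.map S.g) := inferInstance
  exact { exact := hS.exact.map_of_mono_of_preservesKernel F inferInstance inferInstance
          mono_f := h1
          epi_g := h2 }

theorem injDim_map {L : D ⥤ C} {F : C ⥤ D} (adj : L ⊣ F) [L.PreservesMonomorphisms]
    [F.PreservesZeroMorphisms] [F.PreservesEpimorphisms] [EnoughInjectives C] (n : ℕ) :
    ∀ M : C, HasInjectiveDimensionLT M n → HasInjectiveDimensionLT (F.obj M) n := by
  have hlim : PreservesLimitsOfSize.{0, 0} F := adj.rightAdjoint_preservesLimits
  have hfin : PreservesFiniteLimits F := inferInstance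
  have hinj : ∀ I : C, Injective I → Injective (F.obj I) :=
    fun I _ => Injective.injective_of_adjoint adj I
  induction n with
  | zero =>
    intro M hM
    have h1 : IsZero M := isZero_of_hasInjectiveDimensionLT_zero M
    exact (F.map_isZero h1).hasInjectiveDimensionLT_zero
  | succ n ih =>
    intro M hM
    rcases n with _ | n
    · have h1 : Injective M := injective_iff_hasInjectiveDimensionLT_one.2 hM
      exact injective_iff_hasInjectiveDimensionLT_one.1 (hinj M h1)
    · obtain ⟨P⟩ := EnoughInjectives.presentation M
      have hPi : Injective P.J := P.injective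
      have hPm : Mono P.f := P.mono
      let S : ShortComplex C := ShortComplex.mk P.f (cokernel.π P.f) (cokernel.condition P.f)
      have hS : S.ShortExact := { exact := ShortComplex.exact_cokernel P.f }
      have h3 : HasInjectiveDimensionLT S.X₃ (n + 1) :=
        hS.hasInjectiveDimensionLT_X₃ (n + 1)
          (by
            have : HasInjectiveDimensionLT P.J 1 := inferInstance
            exact hasInjectiveDimensionLT_of_ge P.J 1 (n + 1) (by omega)) hM
      have h4 := shortExact_map F hS
      exact h4.hasInjectiveDimensionLT_X₁ (n + 1) (ih _ h3)
        (by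
          have h5 : Injective (F.obj P.J) := hinj _ hPi
          have h6 : HasInjectiveDimensionLT (F.obj P.J) 1 := inferInstance
          exact hasInjectiveDimensionLT_of_ge (F.obj P.J) 1 (n + 1 + 1) (by omega))

/-- dimension count for a morphism with controlled kernel, target and cokernel -/
theorem injDim_of_map {N T : C} (η : N ⟶ T) (n : ℕ)
    (hK : HasInjectiveDimensionLT (kernel η) (n + 1)) (hT : HasInjectiveDimensionLT T (n + 1))
    (hC : HasInjectiveDimensionLT (cokernel η) n) : HasInjectiveDimensionLT N (n + 1) := by
  let S : ShortComplex C := ShortComplex.mk (kernel.ι (cokernel.π η)) (cokernel.π η)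
    (kernel.condition _)
  have hS : S.ShortExact := { exact := ShortComplex.exact_kernel _ }
  have h1 : HasInjectiveDimensionLT (kernel (cokernel.π η)) (n + 1) :=
    hS.hasInjectiveDimensionLT_X₁ n hC hT
  have h2 : HasInjectiveDimensionLT (cokernel (kernel.ι η)) (n + 1) :=
    hasInjectiveDimensionLT_of_iso (Abelian.coimageIsoImage η).symm (n + 1)
  let S' : ShortComplex C := ShortComplex.mk (kernel.ι η) (cokernel.π (kernel.ι η))
    (cokernel.condition _)
  have hS' : S'.ShortExact := { exact := ShortComplex.exact_cokernel _ }
  exact hS'.hasInjectiveDimensionLT_X₂ (n + 1) hK h2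

end Pool.Agent.H66DE.H83
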