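import Pool.Agent.Helper83_DE.Star
import Pool.Agent.Helper83_DE.InjDim

/-!
# Module FINJ for `MP_9c87df_ag`
-/

open CategoryTheory CategoryTheory.Limits AlgebraicGeometry Opposite TopologicalSpace

noncomputable section

namespace Pool.Agent.H66DE.H83

section Functors

variable {Y : Scheme.{0}} {U : Y.Opens} (hU : IsAffineOpen U)

/-- restriction to an affine open, on quasi-coherent modules -/
def resQ : (IsQCoh Y).FullSubcategory ⥤ (IsQCoh (Spec Γ(Y, U))).FullSubcategory :=
  (IsQCoh (Spec Γ(Y, U))).lift ((IsQCoh Y).ι ⋙ Scheme.Modules.restrictFunctor hU.fromSpec)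
    (fun N => by
      have : N.obj.IsQuasicoherent := N.property
      exact Scheme.Modules.isQuasicoherent_restrictFunctor hU.fromSpec N.obj)

variable (hP : PushStatement) [Y.IsSeparated]

/-- push-forward from an affine open, on quasi-coherent modules -/
def pushQ : (IsQCoh (Spec Γ(Y, U))).FullSubcategory ⥤ (IsQCoh Y).FullSubcategory :=
  (IsQCoh Y).lift ((IsQCoh (Spec Γ(Y, U))).ι ⋙ Scheme.Modules.pushforward hU.fromSpec)
    (fun N => (hP Y U hU).1 N.obj N.property)

/-- the adjunction -/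
def adjQ : resQ hU ⊣ pushQ hU hP :=
  (Scheme.Modules.restrictAdjunction hU.fromSpec).restrictFullyFaithful
    (iC := (IsQCoh Y).ι) (iD := (IsQCoh (Spec Γ(Y, U))).ι)
    (ObjectProperty.fullyFaithfulι _) (ObjectProperty.fullyFaithfulι _)
    (Iso.refl _) (Iso.refl _)

/-- quasi-coherent modules on `Spec` -/
def tildeE (R : CommRingCat.{0}) : ModuleCat.{0} R ≌ (IsQCoh (Spec R)).FullSubcategory :=
  tildeEquiv (R := R)

/-- quasi-coherent modules from modules over the sections on an affine open -/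
def fromM : ModuleCat.{0} Γ(Y, U) ⥤ (IsQCoh Y).FullSubcategory :=
  (tildeE Γ(Y, U)).functor ⋙ pushQ hU hP

/-- sections on an affine open -/
def toM : (IsQCoh Y).FullSubcategory ⥤ ModuleCat.{0} Γ(Y, U) :=
  resQ hU ⋙ (tildeE Γ(Y, U)).inverse

/-- the adjunction -/
def adjM : toM hU ⊣ fromM hU hP :=
  (adjQ hU hP).comp (tildeE Γ(Y, U)).symm.toAdjunction

theorem mono_iff_app {X : Scheme.{0}} {M N : X.Modules} (φ : M ⟶ N) :
    Mono φ ↔ ∀ V, Function.Injective (φ.app V) := by
  constructor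
  · intro h V
    have h1 : Mono ((secF V).map φ) := inferInstance
    exact (AddCommGrpCat.mono_iff_injective _).1 h1
  · intro h
    refine ⟨fun a b hab => ?_⟩
    ext V x
    apply h V
    have h2 : (a ≫ φ).app V x = (b ≫ φ).app V x := by rw [hab]
    exact h2

theorem toM_mono [(IsQCoh Y).ContainsZero] [(IsQCoh Y).IsClosedUnderKernels] :
    (toM hU).PreservesMonomorphisms := by
  have h1 : (IsQCoh Y).ι.PreservesMonomorphisms :=
    (IsQCoh Y).preservesMonomorphisms_ι_of_isNormalEpiCategory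
  refine ⟨fun {A B} f hf => ?_⟩
  have h2 : Mono ((IsQCoh Y).ι.map f) := inferInstance
  have h3 : Mono ((IsQCoh (Spec Γ(Y, U))).ι.map ((resQ hU).map f)) := by
    rw [mono_iff_app] at h2 ⊢
    intro V
    exact h2 (hU.fromSpec ''ᵁ V)
  have h4 : Mono ((resQ hU).map f) := (IsQCoh (Spec Γ(Y, U))).ι.mono_of_mono_map h3
  exact inferInstanceAs (Mono ((tildeE Γ(Y, U)).inverse.map ((resQ hU).map f)))

theorem fromM_epi (hC : QCohClosedStatement) : (fromM hU hP).PreservesEpimorphisms := by
  obtain ⟨_, _, _, _⟩ := hC (Spec Γ(Y, U))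
  have h1 : (IsQCoh (Spec Γ(Y, U))).ι.PreservesEpimorphisms :=
    (IsQCoh (Spec Γ(Y, U))).preservesEpimorphisms_ι_of_isNormalMonoCategory
  refine ⟨fun {A B} f hf => ?_⟩
  let g := (tildeE Γ(Y, U)).functor.map f
  have hg : Epi g := inferInstance
  have h2 : Epi ((IsQCoh (Spec Γ(Y, U))).ι.map g) := inferInstance
  have h3 : Epi ((IsQCoh Y).ι.map ((pushQ hU hP).map g)) :=
    (hP Y U hU).2 _ _ _ ((tildeE Γ(Y, U)).functor.obj A).property
      ((tildeE Γ(Y, U)).functor.obj B).property h2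
  exact (IsQCoh Y).ι.epi_of_epi_map h3

end Functors

section Dim

variable {Y : Scheme.{0}} [Y.IsSeparated] {U : Y.Opens} (hU : IsAffineOpen U)
  (hP : PushStatement) (hC : QCohClosedStatement)
  [(IsQCoh Y).ContainsZero] [(IsQCoh Y).IsClosedUnderKernels]
  [(IsQCoh Y).IsClosedUnderCokernels] [(IsQCoh Y).IsClosedUnderFiniteProducts]

include hC in
theorem injDim_fromM (n : ℕ) (M : ModuleCat.{0} Γ(Y, U)) (hM : HasInjectiveDimensionLT M n) :
    HasInjectiveDimensionLT ((fromM hU hP).obj M) n := by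
  have h1 := toM_mono hU
  have h2 := fromM_epi hU hP hC
  have h3 : (fromM hU hP).IsRightAdjoint := (adjM hU hP).isRightAdjoint
  exact injDim_map (adjM hU hP) n M hM

/-- the functor `j_* j^*` on objects -/
def T (N : (IsQCoh Y).FullSubcategory) : (IsQCoh Y).FullSubcategory :=
  (fromM hU hP).obj (glob (N.obj.restrict hU.fromSpec))

/-- the unit, in modules -/
def etaH (N : Y.Modules) [N.IsQuasicoherent] : N ⟶
    (Scheme.Modules.pushforward hU.fromSpec).obj (tilde (glob (N.restrict hU.fromSpec))) :=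
  (Scheme.Modules.restrictAdjunction hU.fromSpec).unit.app N ≫
    (Scheme.Modules.pushforward hU.fromSpec).map (inv (fromT (N.restrict hU.fromSpec)))

theorem etaH_bij (N : Y.Modules) [N.IsQuasicoherent] {V : Y.Opens} (hV : V ≤ U) :
    Function.Bijective ((etaH hU N).app V) := by
  have h1 : (etaH hU N).app V =
    N.presheaf.map (homOfLE (hU.fromSpec.image_preimage_le V)).op ≫
      (inv (fromT (N.restrict hU.fromSpec))).app (hU.fromSpec ⁻¹ᵁ V) := rfl
  have h2 : IsIso ((inv (fromT (N.restrict hU.fromSpec))).app (hU.fromSpec ⁻¹ᵁ V)) :=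
    inferInstance
  have h3 := ConcreteCategory.bijective_of_isIso
    ((inv (fromT (N.restrict hU.fromSpec))).app (hU.fromSpec ⁻¹ᵁ V))
  have h4 : V ≤ hU.fromSpec ''ᵁ (hU.fromSpec ⁻¹ᵁ V) := by
    rw [Scheme.Hom.image_preimage_eq_opensRange_inf, hU.opensRange_fromSpec]
    exact le_inf hV le_rfl
  have h5 : Function.Bijective
      (N.presheaf.map (homOfLE (hU.fromSpec.image_preimage_le V)).op) := by
    refine ⟨map_injective_of_le _ _ h4, fun x => ?_⟩
    refine ⟨N.presheaf.map (homOfLE h4).op x, ?_⟩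
    rw [map_map]
    have e : (homOfLE ((hU.fromSpec.image_preimage_le V).trans h4)).op =
      𝟙 (op (hU.fromSpec ''ᵁ (hU.fromSpec ⁻¹ᵁ V))) := rfl
    rw [e]
    simp
  rw [h1]
  exact h3.comp h5

/-- the unit -/
def eta (N : (IsQCoh Y).FullSubcategory) : N ⟶ T hU hP N :=
  ObjectProperty.homMk (@etaH _ _ hU N.obj N.property)

theorem eta_bij (N : (IsQCoh Y).FullSubcategory) {V : Y.Opens} (hV : V ≤ U) :
    Function.Bijective ((eta hU hP N).hom.app V) := by
  have : N.obj.IsQuasicoherent := N.property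
  exact etaH_bij hU N.obj hV

/-- vanishing on an open subset -/
def Z (N : Y.Modules) (W : Y.Opens) : Prop := ∀ V ≤ W, Subsingleton Γ(N, V)

theorem Z_T (N : (IsQCoh Y).FullSubcategory) (W : Y.Opens) (h : Z N.obj W) :
    Z (T hU hP N).obj W := by
  intro V hV
  have : N.obj.IsQuasicoherent := N.property
  have h3 := ConcreteCategory.bijective_of_isIso
    ((fromT (N.obj.restrict hU.fromSpec)).app (hU.fromSpec ⁻¹ᵁ V))
  have h4 : Subsingleton Γ(N.obj, hU.fromSpec ''ᵁ (hU.fromSpec ⁻¹ᵁ V)) :=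
    h _ ((hU.fromSpec.image_preimage_le V).trans hV)
  have h5 : Subsingleton Γ(N.obj.restrict hU.fromSpec, hU.fromSpec ⁻¹ᵁ V) := h4
  exact h3.1.subsingleton

theorem Z_affine {M : Y.Modules} {W : Y.Opens}
    (h : ∀ V ≤ W, IsAffineOpen V → Subsingleton Γ(M, V)) : Z M W := by
  intro V hV
  refine ⟨fun s t => ?_⟩
  refine eq_of_cover M (fun A : {A : Y.Opens // IsAffineOpen A ∧ A ≤ V} => A.1) V ?_
    (fun A => A.2.2) s t ?_
  · intro x hx
    obtain ⟨A, hA, hxA, hAV⟩ := Opens.isBasis_iff_nbhd.1 Y.isBasis_affineOpens hx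
    exact ⟨⟨A, hA, hAV⟩, hxA⟩
  · intro A
    exact (h A.1 (A.2.2.trans hV) A.2.1).elim _ _

theorem Z_ker {N M : (IsQCoh Y).FullSubcategory} (φ : N ⟶ M) (W : Y.Opens) (h : Z N.obj W) :
    Z (kernel φ).obj W := by
  have h1 : (IsQCoh Y).ι.PreservesMonomorphisms :=
    (IsQCoh Y).preservesMonomorphisms_ι_of_isNormalEpiCategory
  have h2 : Mono ((IsQCoh Y).ι.map (kernel.ι φ)) := inferInstance
  intro V hV
  have : Subsingleton Γ((IsQCoh Y).ι.obj N, V) := h V hV
  exact ((mono_iff_app _).1 h2 V).subsingleton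

theorem Z_ker' {N M : (IsQCoh Y).FullSubcategory} (φ : N ⟶ M) (W : Y.Opens)
    (h : ∀ V ≤ W, Function.Injective (φ.hom.app V)) : Z (kernel φ).obj W := by
  have h1 : (IsQCoh Y).ι.PreservesMonomorphisms :=
    (IsQCoh Y).preservesMonomorphisms_ι_of_isNormalEpiCategory
  have h2 : Mono ((IsQCoh Y).ι.map (kernel.ι φ)) := inferInstance
  intro V hV
  refine ⟨fun x y => (mono_iff_app _).1 h2 V (h V hV ?_)⟩
  have h3 : ∀ z : Γ((kernel φ).obj, V), φ.hom.app V ((kernel.ι φ).hom.app V z) = 0 := by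
    intro z
    have h4 : (kernel.ι φ ≫ φ).hom.app V z = 0 := by rw [kernel.condition]; rfl
    exact h4
  exact (h3 x).trans (h3 y).symm

theorem Z_coker (hE : EpiStatement) {N M : (IsQCoh Y).FullSubcategory} (φ : N ⟶ M) (W : Y.Opens)
    (h : ∀ V ≤ W, IsAffineOpen V → ∀ y : Γ(M.obj, V), ∃ x, φ.hom.app V x = y) :
    Z (cokernel φ).obj W := by
  have h1 : (IsQCoh Y).ι.PreservesEpimorphisms :=
    (IsQCoh Y).preservesEpimorphisms_ι_of_isNormalMonoCategory
  have h2 : Epi ((IsQCoh Y).ι.map (cokernel.π φ)) := inferInstance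
  apply Z_affine
  intro V hV hVa
  have h3 := (hE Y _ _ M.property (cokernel φ).property (cokernel.π φ).hom).1 h2 V hVa
  have h4 : ∀ y : Γ(M.obj, V), (cokernel.π φ).hom.app V y = 0 := by
    intro y
    obtain ⟨x, rfl⟩ := h V hV hVa y
    have h5 : (φ ≫ cokernel.π φ).hom.app V x = 0 := by rw [cokernel.condition]; rfl
    exact h5
  refine ⟨fun x y => ?_⟩
  obtain ⟨x', rfl⟩ := h3 x
  obtain ⟨y', rfl⟩ := h3 y
  exact (h4 x').trans (h4 y').symm

theorem isZero_of_Z (N : (IsQCoh Y).FullSubcategory) {ι : Type} (A : ι → Y.Opens)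
    (hA : ⨆ i, A i = ⊤) (h : ∀ i, Z N.obj (A i)) : IsZero N := by
  rw [IsZero.iff_id_eq_zero]
  apply ObjectProperty.hom_ext
  ext V x
  refine eq_of_cover N.obj (fun i => V ⊓ A i) V ?_ (fun i => inf_le_left) _ _ ?_
  · intro y hy
    obtain ⟨i, hi⟩ := Opens.mem_iSup.1 (hA.ge (Set.mem_univ y))
    exact ⟨i, hy, hi⟩
  · intro i
    exact (h i (V ⊓ A i) inf_le_right).elim _ _

end Dim

theorem finInj (hQ : QCLocStatement) (hE : EpiStatement) (hC : QCohClosedStatement) :
    FinInjStatement := by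
  classical
  intro Y _ _ _ _ _ ι _ U hU hcov hgl
  have hP : PushStatement := push hQ hE
  choose g hg using hgl
  have key : ∀ S : Finset ι, ∃ n : ℕ, ∀ N : (IsQCoh Y).FullSubcategory,
      (∀ i, i ∉ S → Z N.obj (U i)) → HasInjectiveDimensionLT N n := by
    intro S
    induction S using Finset.induction_on with
    | empty =>
      refine ⟨0, fun N hN => ?_⟩
      exact (isZero_of_Z N U hcov (fun i => hN i (by simp))).hasInjectiveDimensionLT_zero
    | insert a S ha ih =>
      obtain ⟨n, hn⟩ := ih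
      let m := max n (g a)
      refine ⟨m + 1, fun N hN => ?_⟩
      have hK : HasInjectiveDimensionLT (kernel (eta (hU a) hP N)) n := by
        apply hn
        intro i hi
        by_cases hia : i = a
        · subst hia
          exact Z_ker' _ _ (fun V hV => (eta_bij (hU i) hP N hV).1)
        · exact Z_ker _ _ (hN i (by simp [hia, hi]))
      have hC' : HasInjectiveDimensionLT (cokernel (eta (hU a) hP N)) n := by
        apply hn
        intro i hi
        by_cases hia : i = a
        · subst hia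
          exact Z_coker hE _ _ (fun V hV _ y => (eta_bij (hU i) hP N hV).2 y)
        · refine Z_coker hE _ _ (fun V hV _ y => ⟨0, ?_⟩)
          exact (Z_T (hU a) hP N (U i) (hN i (by simp [hia, hi])) V hV).elim _ _
      have hT : HasInjectiveDimensionLT (T (hU a) hP N) (g a) :=
        injDim_fromM (hU a) hP hC (g a) _ (hg a _)
      exact injDim_of_map (eta (hU a) hP N) m
        (hasInjectiveDimensionLT_of_ge _ n (m + 1) (by omega))
        (hasInjectiveDimensionLT_of_ge _ (g a) (m + 1) (by omega))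
        (hasInjectiveDimensionLT_of_ge _ n m (by omega))
  have : Fintype ι := Fintype.ofFinite ι
  obtain ⟨n, hn⟩ := key Finset.univ
  exact ⟨n, fun F => hn F (fun i hi => absurd (Finset.mem_univ i) hi)⟩

end Pool.Agent.H66DE.H83
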