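import Pool.Agent.Helper83_DE.Step

/-!
# Module STAR for `MP_9c87df_ag`
-/

open CategoryTheory CategoryTheory.Limits AlgebraicGeometry Opposite TopologicalSpace

noncomputable section

namespace Pool.Agent.H66DE.H83

/-- finite affine cover of a quasi-compact scheme -/
theorem exists_finite_cover (Y : Scheme.{0}) [CompactSpace Y] :
    ∃ (n : ℕ) (U : Fin n → Y.Opens), (∀ i, IsAffineOpen (U i)) ∧ (⨆ i, U i = ⊤) := by
  classical
  have h := isCompact_univ (X := Y)
  obtain ⟨T, hT⟩ := h.elim_finite_subcover (fun V : Y.affineOpens => (V.1 : Set Y))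
    (fun V => V.1.isOpen) (by
      intro x _
      have := (iSup_affineOpens_eq_top Y).ge (Set.mem_univ x)
      obtain ⟨V, hV⟩ := Opens.mem_iSup.1 this
      exact Set.mem_iUnion.2 ⟨V, hV⟩)
  refine ⟨T.card, fun i => (T.equivFin.symm i).1.1, fun i => (T.equivFin.symm i).1.2, ?_⟩
  rw [eq_top_iff]
  intro x _
  obtain ⟨V, hV, hx⟩ := Set.mem_iUnion₂.1 (hT (Set.mem_univ x))
  refine Opens.mem_iSup.2 ⟨T.equivFin ⟨V, hV⟩, ?_⟩
  simpa using hx

theorem star (hQ : QCLocStatement) (hE : EpiStatement) (hC : QCohClosedStatement) :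
    StarStatement := by
  classical
  intro Y _ _ _ G E hG hE' p hp
  have hP : PushStatement := push hQ hE
  obtain ⟨n, U, hU, hcov⟩ := exists_finite_cover Y
  have hfg : ∀ k, Module.Finite Γ(Y, U k) Γ(E, U k) := fun k => hE'.2 (U k) (hU k)
  have hsurj : ∀ k, Function.Surjective (p.app (U k)) :=
    fun k => (hE Y G E hG hE'.1 p).1 hp (U k) (hU k)
  -- generators and lifts
  have h1 : ∀ k, ∃ S : Finset Γ(E, U k), Submodule.span Γ(Y, U k) (S : Set Γ(E, U k)) = ⊤ :=
    fun k => (hfg k).1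
  choose S hS using h1
  let κ : Type := Σ k : Fin n, {x // x ∈ S k}
  let V : κ → Y.Opens := fun x => U x.1
  have hV : ∀ k, IsAffineOpen (V k) := fun k => hU k.1
  have h2 : ∀ x : κ, ∃ s : Γ(G, V x), p.app (V x) s = x.2.1 := fun x => hsurj x.1 _
  choose s hs using h2
  -- recursion
  have h3 : ∀ T : Finset (Fin n), ∃ (G' : Y.Modules) (i : G' ⟶ G), IsQCoh Y G' ∧
      (∀ W, Function.Injective (i.app W)) ∧ (∀ k ∈ T, Module.Finite Γ(Y, U k) Γ(G', U k)) ∧
      ∀ k, ∃ s', i.app (V k) s' = s k := by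
    intro T
    induction T using Finset.induction_on with
    | empty =>
      refine ⟨G, 𝟙 G, hG, fun W => ?_, by simp, fun k => ⟨s k, rfl⟩⟩
      intro x y hxy
      exact hxy
    | insert a T ha ih =>
      obtain ⟨G1, i1, hG1, hi1, hf1, hs1⟩ := ih
      choose s1 hs1 using hs1
      obtain ⟨G2, i2, hG2, hi2, hf2, hs2⟩ := step hQ hP hC hG1 (hU a) V hV s1
      refine ⟨G2, i2 ≫ i1, hG2, fun W => ?_, ?_, ?_⟩
      · intro x y hxy
        exact hi2 W (hi1 W hxy)
      · intro k hk
        rcases Finset.mem_insert.1 hk with rfl | hk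
        · exact hf2
        · have := hf1 k hk
          have hnoeth : IsNoetherianRing Γ(Y, U k) :=
            IsLocallyNoetherian.component_noetherian ⟨U k, hU k⟩
          let e : Γ(G2, U k) →ₗ[Γ(Y, U k)] Γ(G1, U k) :=
            { toFun := fun x => i2.app (U k) x
              map_add' := fun x y => map_add _ x y
              map_smul' := fun r x => Scheme.Modules.Hom.app_smul i2 r x }
          exact Module.Finite.of_injective e (hi2 (U k))
      · intro k
        obtain ⟨s', hs'⟩ := hs2 k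
        refine ⟨s', ?_⟩
        rw [← hs1 k, ← hs']
        rfl
  obtain ⟨G', i, hG', hi, hf, hs'⟩ := h3 Finset.univ
  refine ⟨G', i, ⟨hG', fun W hW => finite_local hQ hG' U hU hcov
    (fun k => hf k (Finset.mem_univ k)) W hW⟩, ?_⟩
  refine (hE Y G' E hG' hE'.1 (i ≫ p)).2 (Fin n) U hU hcov ?_
  intro k
  let e : Γ(G', U k) →ₗ[Γ(Y, U k)] Γ(E, U k) :=
    { toFun := fun x => (i ≫ p).app (U k) x
      map_add' := fun x y => map_add _ x y
      map_smul' := fun r x => Scheme.Modules.Hom.app_smul (i ≫ p) r x }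
  have he : LinearMap.range e = ⊤ := by
    rw [eq_top_iff, ← hS k, Submodule.span_le]
    intro x hx
    obtain ⟨t, ht⟩ := hs' ⟨k, x, hx⟩
    refine ⟨t, ?_⟩
    have := hs ⟨k, x, hx⟩
    rw [← ht] at this
    exact this
  exact LinearMap.range_eq_top.1 he

end Pool.Agent.H66DE.H83
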