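import Pool.Agent.Helper83_DE.Sec

/-!
# Finite generation of sections is local, for `MP_9c87df_ag`
-/

open CategoryTheory CategoryTheory.Limits AlgebraicGeometry Opposite TopologicalSpace

noncomputable section

namespace Pool.Agent.H66DE.H83

variable {Y : Scheme.{0}}

section

variable (M : Y.Modules) (U : Y.Opens) (f : Γ(Y, U))

/-- sections over `D(f)` as a module over sections over `U` -/
def modD : Module Γ(Y, U) Γ(M, Y.basicOpen f) :=
  Module.compHom _ (algebraMap Γ(Y, U) Γ(Y, Y.basicOpen f))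

/-- restriction to `D(f)` as a linear map -/
def resD : letI := modD M U f; Γ(M, U) →ₗ[Γ(Y, U)] Γ(M, Y.basicOpen f) :=
  letI := modD M U f
  { toFun := fun s => M.presheaf.map (homOfLE (Y.basicOpen_le f)).op s
    map_add' := fun s t => map_add _ s t
    map_smul' := fun r s => M.map_smul (homOfLE (Y.basicOpen_le f)) r s }

theorem isUnit_res : IsUnit (Y.presheaf.map (homOfLE (Y.basicOpen_le f)).op f) :=
  RingedSpace.isUnit_res_basicOpen _ f

theorem isLocalizedModule_resD (h : LocAt M U f) :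
    letI := modD M U f; IsLocalizedModule.Away f (resD M U f) := by
  letI := modD M U f
  refine IsLocalizedModule.Away.mk_of_addCommGroup ?_ ?_ ?_
  · rw [Module.End.isUnit_iff]
    have hu := isUnit_res U f
    obtain ⟨u, hu⟩ := hu
    have hb : Function.Bijective (fun x : Γ(M, Y.basicOpen f) => (u : Γ(Y, Y.basicOpen f)) • x) := by
      refine ⟨fun x y hxy => ?_, fun x => ⟨(↑u⁻¹ : Γ(Y, Y.basicOpen f)) • x, ?_⟩⟩
      · have := congrArg (fun z => (↑u⁻¹ : Γ(Y, Y.basicOpen f)) • z) hxy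
        simpa [smul_smul] using this
      · simp [smul_smul]
    rw [hu] at hb
    exact hb
  · intro x
    obtain ⟨n, t, ht⟩ := h.2 x
    refine ⟨n, t, ?_⟩
    show (algebraMap Γ(Y, U) Γ(Y, Y.basicOpen f)) (f ^ n) • x = _
    rw [map_pow]
    exact ht.symm
  · intro t ht
    exact h.1 t ht

end

theorem finite_basicOpen {M : Y.Modules} {U : Y.Opens} (hU : IsAffineOpen U) (f : Γ(Y, U))
    (h : LocAt M U f) (hf : Module.Finite Γ(Y, U) Γ(M, U)) :
    Module.Finite Γ(Y, Y.basicOpen f) Γ(M, Y.basicOpen f) := by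
  letI := modD M U f
  haveI := isLocalizedModule_resD M U f h
  haveI : IsLocalization.Away f Γ(Y, Y.basicOpen f) := hU.isLocalization_basicOpen f
  haveI : IsScalarTower Γ(Y, U) Γ(Y, Y.basicOpen f) Γ(M, Y.basicOpen f) :=
    .of_algebraMap_smul fun _ _ => rfl
  exact Module.Finite.of_isLocalizedModule (Submonoid.powers f) (resD M U f)

theorem finite_of_basicOpen {M : Y.Modules} {U : Y.Opens} (hU : IsAffineOpen U)
    (t : Finset Γ(Y, U)) (ht : Ideal.span (t : Set Γ(Y, U)) = ⊤)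
    (h : ∀ f ∈ t, LocAt M U f)
    (hf : ∀ f ∈ t, Module.Finite Γ(Y, Y.basicOpen f) Γ(M, Y.basicOpen f)) :
    Module.Finite Γ(Y, U) Γ(M, U) := by
  letI : ∀ g : t, Module Γ(Y, U) Γ(M, Y.basicOpen g.1) := fun g => modD M U g.1
  haveI : ∀ g : t, IsLocalizedModule.Away g.1 (resD M U g.1) :=
    fun g => isLocalizedModule_resD M U g.1 (h g.1 g.2)
  haveI : ∀ g : t, IsLocalization.Away g.1 Γ(Y, Y.basicOpen g.1) :=
    fun g => hU.isLocalization_basicOpen g.1
  haveI : ∀ g : t, IsScalarTower Γ(Y, U) Γ(Y, Y.basicOpen g.1) Γ(M, Y.basicOpen g.1) :=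
    fun g => .of_algebraMap_smul fun _ _ => rfl
  exact Module.Finite.of_localizationSpan_finite' t ht (fun g => resD M U g.1)
    (fun g => hf g.1 g.2)

theorem finite_local (hQ : QCLocStatement) {M : Y.Modules} (hM : IsQCoh Y M) {ι : Type}
    (U : ι → Y.Opens) (hU : ∀ i, IsAffineOpen (U i)) (hc : ⨆ i, U i = ⊤)
    (hf : ∀ i, Module.Finite Γ(Y, U i) Γ(M, U i)) (V : Y.Opens) (hV : IsAffineOpen V) :
    Module.Finite Γ(Y, V) Γ(M, V) := by
  refine of_affine_open_cover (P := fun W => Module.Finite Γ(Y, W.1) Γ(M, W.1))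
    (fun i => (⟨U i, hU i⟩ : Y.affineOpens)) hc ⟨V, hV⟩ ?_ ?_ hf
  · intro W f hW
    exact finite_basicOpen W.2 f (hQ.1 Y M hM W.1 W.2 f) hW
  · intro W s hs h
    exact finite_of_basicOpen W.2 s hs (fun f _ => hQ.1 Y M hM W.1 W.2 f)
      (fun f hf => h ⟨f, hf⟩)

end Pool.Agent.H66DE.H83
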