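import Pool.Agent.Helper66_DE.Statements

/-!
# Module PUSH for `MP_9c87df_ag`
-/

open CategoryTheory CategoryTheory.Limits AlgebraicGeometry

noncomputable section

namespace Pool.Agent.H66DE.H83

/-- the inclusion of an affine open subset of a separated scheme is an affine morphism -/
theorem isAffineHom_fromSpec {Y : Scheme.{0}} [Y.IsSeparated] {U : Y.Opens}
    (hU : IsAffineOpen U) : IsAffineHom hU.fromSpec := by
  have : IsAffineHom (hU.fromSpec ≫ terminal.from Y) := by
    rw [terminal.comp_from]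
    infer_instance
  exact IsAffineHom.of_comp hU.fromSpec (terminal.from Y)

theorem locAt_congr {Y : Scheme.{0}} (M : Y.Modules) (U : Y.Opens) (f : Γ(Y, U))
    (W : Y.Opens) (hW : W = Y.basicOpen f) :
    (LocAt M U f ↔
    ((∀ t : Γ(M, U), M.presheaf.map (homOfLE (hW.le.trans (Y.basicOpen_le f))).op t = 0 →
      ∃ n : ℕ, f ^ n • t = 0) ∧
    (∀ s : Γ(M, W), ∃ (n : ℕ) (t : Γ(M, U)),
      M.presheaf.map (homOfLE (hW.le.trans (Y.basicOpen_le f))).op t =
        (Y.presheaf.map (homOfLE (hW.le.trans (Y.basicOpen_le f))).op f) ^ n • s))) := by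
  subst hW
  rfl

theorem locAt_push {X Y : Scheme.{0}} (j : X ⟶ Y) (G : X.Modules) (V : Y.Opens) (f : Γ(Y, V))
    (h : LocAt G (j ⁻¹ᵁ V) (j.app V f)) :
    LocAt ((Scheme.Modules.pushforward j).obj G) V f := by
  rw [locAt_congr G (j ⁻¹ᵁ V) (j.app V f) (j ⁻¹ᵁ Y.basicOpen f)
    (Scheme.preimage_basicOpen j f)] at h
  refine ⟨fun t ht => ?_, fun s => ?_⟩
  · obtain ⟨n, hn⟩ := h.1 t ht
    refine ⟨n, ?_⟩
    have : (j.app V f) ^ n = j.app V (f ^ n) := (map_pow _ _ _).symm
    rw [this] at hn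
    exact hn
  · obtain ⟨n, t, ht⟩ := h.2 s
    refine ⟨n, t, ?_⟩
    refine ht.trans ?_
    have : (X.presheaf.map (homOfLE ((Scheme.preimage_basicOpen j f).le.trans
        (X.basicOpen_le _))).op (j.app V f)) ^ n =
        j.app (Y.basicOpen f) ((Y.presheaf.map (homOfLE (Y.basicOpen_le f)).op f) ^ n) := by
      rw [map_pow]
      congr 1
      exact congr($((j.naturality (homOfLE (Y.basicOpen_le f)).op).symm) f)
    rw [this]
    rfl

theorem push (hQ : QCLocStatement) (hE : EpiStatement) : PushStatement := by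
  intro Y _ U hU
  have haff := isAffineHom_fromSpec hU
  have hq : ∀ G : (Spec Γ(Y, U)).Modules, IsQCoh _ G →
      IsQCoh Y ((Scheme.Modules.pushforward hU.fromSpec).obj G) := by
    intro G hG
    refine hQ.2 Y _ Y.affineOpens (fun V => V.1) (fun V => V.2) (iSup_affineOpens_eq_top Y) ?_
    intro V f
    exact locAt_push _ _ _ _ (hQ.1 _ _ hG _ (V.2.preimage hU.fromSpec) _)
  refine ⟨hq, ?_⟩
  intro G H p hG hH hp
  refine (hE Y _ _ (hq G hG) (hq H hH) _).2 Y.affineOpens (fun V => V.1) (fun V => V.2)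
    (iSup_affineOpens_eq_top Y) ?_
  intro V
  exact (hE _ _ _ hG hH p).1 hp _ (V.2.preimage hU.fromSpec)

end Pool.Agent.H66DE.H83
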