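import Pool.Agent.Helper83_DE.Push

/-!
# Sections of kernels, separation by covers, for `MP_9c87df_ag`
-/

open CategoryTheory CategoryTheory.Limits AlgebraicGeometry Opposite TopologicalSpace

noncomputable section

namespace Pool.Agent.H66DE.H83

variable {Y : Scheme.{0}}

/-- sections over `V` as a functor to abelian groups -/
def secF (V : Y.Opens) : Y.Modules ⥤ Ab.{0} :=
  Scheme.Modules.toPresheaf Y ⋙ (evaluation _ _).obj (op V)

instance (V : Y.Opens) : PreservesLimits (secF V) := by
  have : PreservesLimits ((evaluation (Opens Y)ᵒᵖ Ab.{0}).obj (op V)) :=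
    ⟨fun {J} _ => inferInstance⟩
  exact comp_preservesLimits _ _

theorem secF_map {M N : Y.Modules} (φ : M ⟶ N) (V : Y.Opens) : (secF V).map φ = φ.app V := rfl

instance (V : Y.Opens) : (secF V).PreservesZeroMorphisms where
  map_zero _ _ := rfl

/-- sections of a kernel -/
theorem exists_ker {M N K : Y.Modules} {i : K ⟶ M} {φ : M ⟶ N} (h : i ≫ φ = 0)
    (hl : IsLimit (KernelFork.ofι i h)) (V : Y.Opens) :
    Function.Injective (i.app V) ∧ ∀ s : Γ(M, V), φ.app V s = 0 → ∃ t, i.app V t = s := by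
  have hm : Mono i := mono_of_isLimit_fork hl
  have hi : Mono ((secF V).map i) := inferInstance
  refine ⟨(AddCommGrpCat.mono_iff_injective _).1 hi, fun s hs => ?_⟩
  have hS : (ShortComplex.mk i φ h).Exact := ShortComplex.exact_of_f_is_kernel _ hl
  have : PreservesFiniteLimits (secF V) := inferInstance
  have hS' : ((ShortComplex.mk i φ h).map (secF V)).Exact := hS.map_of_mono_of_preservesKernel
    (secF V) inferInstance inferInstance
  exact (ShortComplex.ab_exact_iff _).1 hS' s hs

theorem ker_app {M N : Y.Modules} (φ : M ⟶ N) (V : Y.Opens) :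
    Function.Injective ((kernel.ι φ).app V) ∧
      ∀ s : Γ(M, V), φ.app V s = 0 → ∃ t, (kernel.ι φ).app V t = s :=
  exists_ker (kernel.condition φ) (kernelIsKernel φ) V

theorem map_app {M N : Y.Modules} (φ : M ⟶ N) {V W : Y.Opens} (h : W ≤ V) (s : Γ(M, V)) :
    φ.app W (M.presheaf.map (homOfLE h).op s) = N.presheaf.map (homOfLE h).op (φ.app V s) :=
  congr($(φ.mapPresheaf.naturality (homOfLE h).op) s)

theorem map_map {M : Y.Modules} {U V W : Y.Opens} (h : V ≤ U) (h' : W ≤ V) (s : Γ(M, U)) :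
    M.presheaf.map (homOfLE h').op (M.presheaf.map (homOfLE h).op s) =
      M.presheaf.map (homOfLE (h'.trans h)).op s := by
  rw [← ConcreteCategory.comp_apply, ← Functor.map_comp]
  rfl

/-- sections agreeing on a cover are equal -/
theorem eq_of_cover (M : Y.Modules) {ι : Type} (U : ι → Y.Opens) (V : Y.Opens)
    (hV : ∀ x ∈ V, ∃ i, x ∈ U i) (hU : ∀ i, U i ≤ V) (s t : Γ(M, V))
    (h : ∀ i, M.presheaf.map (homOfLE (hU i)).op s = M.presheaf.map (homOfLE (hU i)).op t) :
    s = t := by
  refine TopCat.Sheaf.eq_of_locally_eq' ⟨M.presheaf, M.isSheaf⟩ U V (fun i => homOfLE (hU i)) ?_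
    s t h
  intro x hx
  obtain ⟨i, hi⟩ := hV x hx
  exact Opens.mem_iSup.2 ⟨i, hi⟩

end Pool.Agent.H66DE.H83
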