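import Pool.Agent.Helper83_DE.Fin

/-!
# Quasi-coherent submodules with finitely generated sections on one chart, for `MP_9c87df_ag`
-/

open CategoryTheory CategoryTheory.Limits AlgebraicGeometry Opposite TopologicalSpace

noncomputable section

namespace Pool.Agent.H66DE.H83

variable {Y : Scheme.{0}}

theorem finite_test (hQ : QCLocStatement) {G : Y.Modules} (hG : IsQCoh Y G) {U : Y.Opens}
    (hU : IsAffineOpen U) {W : Y.Opens} (hWU : W ≤ U) (hW : IsCompact (W : Set Y))
    (t : Γ(G, W)) :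
    ∃ F : Set Γ(G, U), F.Finite ∧ ∀ (K : Y.Modules) (φ : G ⟶ K), (∀ m ∈ F, φ.app U m = 0) →
      φ.app W t = 0 := by
  classical
  have h1 : ∀ x : W, ∃ f : Γ(Y, U), Y.basicOpen f ≤ W ∧ (x : Y) ∈ Y.basicOpen f :=
    fun x => hU.exists_basicOpen_le x (hWU x.2)
  choose f hf hx using h1
  have h2 : ∀ x : W, ∃ (n : ℕ) (m : Γ(G, U)),
      G.presheaf.map (homOfLE (Y.basicOpen_le (f x))).op m =
      (Y.presheaf.map (homOfLE (Y.basicOpen_le (f x))).op (f x)) ^ n •
        G.presheaf.map (homOfLE (hf x)).op t :=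
    fun x => (hQ.1 Y G hG U hU (f x)).2 _
  choose n m hm using h2
  obtain ⟨T, hT⟩ := hW.elim_finite_subcover (fun x : W => (Y.basicOpen (f x) : Set Y))
    (fun x => (Y.basicOpen (f x)).isOpen)
    (fun x hxW => Set.mem_iUnion.2 ⟨⟨x, hxW⟩, hx ⟨x, hxW⟩⟩)
  refine ⟨Set.range (fun x : T => m x.1), Set.finite_range _, ?_⟩
  intro K φ hφ
  refine eq_of_cover K (fun x : T => Y.basicOpen (f x.1)) W ?_ (fun x => hf x.1) _ _ ?_
  · intro x hxW
    obtain ⟨i, hi, hxi⟩ := Set.mem_iUnion₂.1 (hT hxW)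
    exact ⟨⟨i, hi⟩, hxi⟩
  · intro x
    rw [map_zero, ← map_app]
    have h3 := congrArg (φ.app (Y.basicOpen (f x.1))) (hm x.1)
    rw [map_app, hφ _ ⟨x, rfl⟩, map_zero, Scheme.Modules.Hom.app_smul] at h3
    obtain ⟨u, hu⟩ := isUnit_res U (f x.1)
    rw [← hu, ← Units.val_pow_eq_pow_val] at h3
    have h4 := congrArg (fun z => (↑(u ^ n x.1)⁻¹ : Γ(Y, Y.basicOpen (f x.1))) • z) h3
    dsimp only at h4
    rw [smul_zero, smul_smul, Units.inv_mul, one_smul] at h4
    exact h4.symm

/-- restriction between equal open subsets is injective -/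
theorem map_injective_of_le (M : Y.Modules) {V W : Y.Opens} (h : W ≤ V) (h' : V ≤ W) :
    Function.Injective (M.presheaf.map (homOfLE h).op) := by
  intro s t hst
  have := congrArg (M.presheaf.map (homOfLE h').op) hst
  rw [map_map, map_map] at this
  have e : (homOfLE (h'.trans h)).op = 𝟙 (op V) := rfl
  rw [e] at this
  simpa using this

section Psi

variable {R : CommRingCat.{0}} (H : (Spec R).Modules)

/-- global sections as an `R`-module -/
abbrev glob : ModuleCat.{0} R := (modulesSpecToSheaf.obj H).presheaf.obj (op ⊤)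

variable (M0 : Submodule R (glob H))

/-- the sheaf associated with the quotient of the global sections -/
abbrev quoS : (Spec R).Modules := tilde (ModuleCat.of R (glob H ⧸ M0))

/-- the quotient map -/
def quoMap : glob H ⟶ ModuleCat.of R (glob H ⧸ M0) :=
  ModuleCat.ofHom (X := (glob H : Type)) (Y := (glob H : Type) ⧸ M0) (Submodule.mkQ M0)

/-- the counit -/
def fromT : tilde (glob H) ⟶ H := Scheme.Modules.fromTildeΓ (R := R) H

variable [H.IsQuasicoherent]

instance : IsIso (fromT H) := Scheme.Modules.isIso_fromTildeΓ_of_isQuasicoherent (R := R) H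

/-- the projection -/
def psi : H ⟶ quoS H M0 :=
  inv (fromT H) ≫ tilde.map (quoMap H M0)

theorem psi_comp : fromT H ≫ psi H M0 = tilde.map (quoMap H M0) := by
  unfold psi
  simp

theorem psi_top (l : glob H) : (modulesSpecToSheaf.map (psi H M0)).1.app (op ⊤) l = 
  tilde.toOpen _ ⊤ (M0.mkQ l) := by
  have h1 : tilde.toOpen (glob H) ⊤ ≫ (modulesSpecToSheaf.map (fromT H)).1.app (op ⊤) =
    (modulesSpecToSheaf.obj H).1.map (homOfLE le_top).op :=
    Scheme.Modules.toOpen_fromTildeΓ_app (R := R) H ⊤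
  have h2 : (modulesSpecToSheaf.obj H).1.map (homOfLE (le_top : (⊤ : (Spec R).Opens) ≤ ⊤)).op =
    𝟙 _ := (modulesSpecToSheaf.obj H).1.map_id _
  rw [h2] at h1
  have h3 := tilde.toOpen_map_app (quoMap H M0) ⊤
  rw [← psi_comp, Functor.map_comp] at h3
  have h4 : (tilde.toOpen (glob H) ⊤ ≫ (modulesSpecToSheaf.map (fromT H)).1.app (op ⊤)) ≫ 
    (modulesSpecToSheaf.map (psi H M0)).1.app (op ⊤) = quoMap H M0 ≫ tilde.toOpen _ ⊤ := by
    rw [Category.assoc]
    exact h3
  rw [h1] at h4
  exact congr($h4 l)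

theorem psi_top_iff (l : Γ(H, ⊤)) : (psi H M0).app ⊤ l = 0 ↔ (l : glob H) ∈ M0 := by
  have h1 := psi_top H M0 l
  have h2 : (modulesSpecToSheaf.map (psi H M0)).1.app (op ⊤) l = (psi H M0).app ⊤ l := rfl
  rw [h2] at h1
  have h3 : Function.Injective (tilde.toOpen (ModuleCat.of R (glob H ⧸ M0)) ⊤) :=
    (ConcreteCategory.bijective_of_isIso _).1
  rw [h1]
  constructor
  · intro h
    have h4 : tilde.toOpen (ModuleCat.of R (glob H ⧸ M0)) ⊤ (M0.mkQ l) =
      tilde.toOpen (ModuleCat.of R (glob H ⧸ M0)) ⊤ 0 := h.trans (map_zero _).symm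
    exact (Submodule.Quotient.mk_eq_zero M0).1 (h3 h4)
  · intro h
    have h4 : M0.mkQ (l : glob H) = 0 := (Submodule.Quotient.mk_eq_zero M0).2 h
    exact (congrArg _ h4).trans (map_zero _)

end Psi

section

variable {U : Y.Opens} (hU : IsAffineOpen U) (G : Y.Modules)

/-- the global sections of the restriction of `G` to the affine open `U` -/
abbrev topMod : ModuleCat.{0} Γ(Y, U) :=
  (modulesSpecToSheaf.obj (G.restrict hU.fromSpec)).presheaf.obj (op ⊤)

theorem image_top_le : hU.fromSpec ''ᵁ ⊤ ≤ U := by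
  rw [Scheme.Hom.image_top_eq_opensRange, hU.opensRange_fromSpec]

theorem le_image_top : U ≤ hU.fromSpec ''ᵁ ⊤ := by
  rw [Scheme.Hom.image_top_eq_opensRange, hU.opensRange_fromSpec]

theorem scal_aux : (Scheme.ΓSpecIso Γ(Y, U)).inv ≫ (hU.fromSpec.appIso ⊤).inv =
    Y.presheaf.map (homOfLE (image_top_le hU)).op := by
  have h1 := hU.fromSpec.app_appIso_inv U
  have h2 := hU.fromSpec_app_self
  rw [h2, Category.assoc, Scheme.Hom.appIso_inv_naturality] at h1
  have h3 := congrArg (fun z => z ≫ Y.presheaf.map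
    (homOfLE (show hU.fromSpec ''ᵁ ⊤ ≤ hU.fromSpec ''ᵁ (hU.fromSpec ⁻¹ᵁ U) from
      Scheme.Hom.image_mono _ (hU.fromSpec_preimage_self.ge))).op) h1
  simp only [Category.assoc, ← Functor.map_comp] at h3
  convert h3 using 2
  · rw [show ((Scheme.Hom.opensFunctor hU.fromSpec).op.map
      (eqToHom hU.fromSpec_preimage_self).op ≫ (homOfLE _).op) =
      𝟙 (op (hU.fromSpec ''ᵁ ⊤)) from rfl, CategoryTheory.Functor.map_id, Category.comp_id]
  · rfl


/-- restriction from `U` to the image of `Spec`, as a linear map -/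
def resTop : Γ(G, U) →ₗ[Γ(Y, U)] topMod hU G where
  toFun s := (G.presheaf.map (homOfLE (image_top_le hU)).op s :)
  map_add' s t := map_add _ s t
  map_smul' r s := by
    refine (G.map_smul (homOfLE (image_top_le hU)) r s).trans ?_
    rw [← scal_aux hU]
    rfl

theorem resTop_injective : Function.Injective (resTop hU G) :=
  map_injective_of_le G (image_top_le hU) (le_image_top hU)

section

variable (M0 : Submodule Γ(Y, U) (topMod hU G)) [G.IsQuasicoherent]

/-- the adjoint of the projection -/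
def phi : G ⟶ (Scheme.Modules.pushforward hU.fromSpec).obj (quoS (G.restrict hU.fromSpec) M0) :=
  (Scheme.Modules.restrictAdjunction hU.fromSpec).homEquiv _ _ (psi (G.restrict hU.fromSpec) M0)

theorem phi_app (V : Y.Opens) (s : Γ(G, V)) : (phi hU G M0).app V s =
    (psi (G.restrict hU.fromSpec) M0).app (hU.fromSpec ⁻¹ᵁ V)
      (G.presheaf.map (homOfLE (hU.fromSpec.image_preimage_le V)).op s) := by
  unfold phi
  rw [Adjunction.homEquiv_unit]
  rfl

theorem phi_app_U (s : Γ(G, U)) : (phi hU G M0).app U s = 0 ↔ resTop hU G s ∈ M0 := by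
  rw [phi_app]
  refine Iff.trans ?_ (psi_top_iff (G.restrict hU.fromSpec) M0 (resTop hU G s))
  have h1 : (⊤ : (Spec Γ(Y, U)).Opens) ≤ hU.fromSpec ⁻¹ᵁ U := hU.fromSpec_preimage_self.ge
  let z : Γ(G.restrict hU.fromSpec, hU.fromSpec ⁻¹ᵁ U) :=
    G.presheaf.map (homOfLE (hU.fromSpec.image_preimage_le U)).op s
  have h2 := map_app (psi (G.restrict hU.fromSpec) M0) h1 z
  have h3 : resTop hU G s = (G.restrict hU.fromSpec).presheaf.map (homOfLE h1).op z :=
    (map_map (M := G) (hU.fromSpec.image_preimage_le U)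
      (Scheme.Hom.image_mono hU.fromSpec h1) s).symm
  rw [h3]
  constructor
  · intro h
    exact h2.trans ((congrArg _ h).trans (map_zero _))
  · intro h
    apply map_injective_of_le (quoS (G.restrict hU.fromSpec) M0) h1 le_top
    exact h2.symm.trans (h.trans (map_zero _).symm)

theorem phi_inf (V : Y.Opens) (s : Γ(G, V))
    (h : (phi hU G M0).app (V ⊓ U) (G.presheaf.map (homOfLE inf_le_left).op s) = 0) :
    (phi hU G M0).app V s = 0 := by
  rw [map_app] at h
  have h1 : hU.fromSpec ⁻¹ᵁ V ≤ hU.fromSpec ⁻¹ᵁ (V ⊓ U) := by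
    rw [Scheme.Hom.preimage_inf, hU.fromSpec_preimage_self]
    exact le_inf le_rfl le_top
  have h2 : hU.fromSpec ⁻¹ᵁ (V ⊓ U) ≤ hU.fromSpec ⁻¹ᵁ V := by
    rw [Scheme.Hom.preimage_inf]
    exact inf_le_left
  apply map_injective_of_le (quoS (G.restrict hU.fromSpec) M0) h2 h1
  exact Eq.trans h (map_zero _).symm

end

end

/-- A quasi-coherent submodule containing given sections, with finitely generated sections on
one chart. -/
theorem step (hQ : QCLocStatement) (hP : PushStatement) (hC : QCohClosedStatement)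
    [Y.IsSeparated] [IsLocallyNoetherian Y] {G : Y.Modules} (hG : IsQCoh Y G) {U : Y.Opens}
    (hU : IsAffineOpen U) {κ : Type} [Finite κ] (V : κ → Y.Opens) (hV : ∀ k, IsAffineOpen (V k))
    (s : ∀ k, Γ(G, V k)) :
    ∃ (G' : Y.Modules) (i : G' ⟶ G), IsQCoh Y G' ∧ (∀ W, Function.Injective (i.app W)) ∧
      Module.Finite Γ(Y, U) Γ(G', U) ∧ ∀ k, ∃ s', i.app (V k) s' = s k := by
  classical
  have hqc : G.IsQuasicoherent := hG
  have h1 : ∀ k, ∃ F : Set Γ(G, U), F.Finite ∧ ∀ (K : Y.Modules) (φ : G ⟶ K),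
      (∀ m ∈ F, φ.app U m = 0) →
      φ.app (V k ⊓ U) (G.presheaf.map (homOfLE inf_le_left).op (s k)) = 0 :=
    fun k => finite_test hQ hG hU inf_le_right ((hV k).inf hU).isCompact _
  choose F hF hFs using h1
  let M0 : Submodule Γ(Y, U) (topMod hU G) := Submodule.span _ (⋃ k, resTop hU G '' (F k))
  have hfin : (⋃ k, resTop hU G '' (F k)).Finite := Set.finite_iUnion fun k => (hF k).image _
  have hM0 : Module.Finite Γ(Y, U) M0 := Module.Finite.span_of_finite _ hfin
  have hnoeth : IsNoetherianRing Γ(Y, U) := IsLocallyNoetherian.component_noetherian ⟨U, hU⟩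
  obtain ⟨_, hker, _, _⟩ := hC Y
  have hK := ker_app (phi hU G M0)
  refine ⟨kernel (phi hU G M0), kernel.ι _, ?_, fun W => (hK W).1, ?_, ?_⟩
  · refine ObjectProperty.prop_kernel (IsQCoh Y) _ hG ?_
    exact (hP Y U hU).1 _ (inferInstanceAs (tilde _).IsQuasicoherent)
  · let e : Γ(kernel (phi hU G M0), U) →ₗ[Γ(Y, U)] M0 :=
      { toFun := fun x => ⟨resTop hU G ((kernel.ι (phi hU G M0)).app U x), by
          rw [← phi_app_U, ← ConcreteCategory.comp_apply, ← Scheme.Modules.Hom.comp_app,
            kernel.condition]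
          rfl⟩
        map_add' := fun x y => by
          apply Subtype.ext
          show resTop hU G _ = resTop hU G _ + resTop hU G _
          rw [map_add, map_add]
        map_smul' := fun r x => by
          apply Subtype.ext
          show resTop hU G _ = r • resTop hU G _
          rw [Scheme.Modules.Hom.app_smul, map_smul] }
    have he : Function.Injective e := by
      intro x y hxy
      exact (hK U).1 (resTop_injective hU G (congrArg Subtype.val hxy))
    exact Module.Finite.of_injective e he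
  · intro k
    refine (hK (V k)).2 (s k) (phi_inf hU G M0 (V k) (s k) (hFs k _ _ ?_))
    intro m hm
    rw [phi_app_U]
    exact Submodule.subset_span (Set.mem_iUnion.2 ⟨k, m, hm, rfl⟩)

end Pool.Agent.H66DE.H83
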